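import Pool.Agent.Helper89_MNT.FUP

set_option autoImplicit false

/-!
# MNT, row FLO: unit flow from `v` to the grounded nodes
-/

namespace Pool.Agent.MNT.H89

open scoped Classical

/-- FLO. -/
theorem flo (hFPL : FplStmt) (hFDN : FdnStmt) (hFUP : FupStmt) : FloStmt := by
  intro V _ _ _ T G l s r hl hG hR v
  by_cases hGv : G v
  · refine ⟨dl v, ?_, ?_, ?_, ?_⟩
    · intro j
      unfold dl
      split_ifs
      · exact zero_le_one
      · exact le_rfl
    · intro j hj
      have hju : j = v := by
        by_contra hne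
        exact hj (if_neg hne)
      subst hju
      exact hGv
    · unfold dl
      rw [Finset.sum_ite_eq']
      simp
    · rw [QQ_zero]
      unfold hh
      rw [hR.s_grd v hGv]
      simp
  · have hv : v ≠ ⊤ := fun h => hGv (h ▸ hG)
    obtain ⟨U, hU0, hU, hU1, hUQ⟩ := hFUP V T G l s r hl hG hR v hv
    choose D hD0 hD hD1 hDQ using hFDN V T G l s r hl hR
    obtain ⟨E, hE0, hE, hE1, hEQ⟩ := comb hFPL T G l s r hl hR hv (T.kids v)
      (Finset.Subset.refl _) U hU0 hU hU1 hUQ D hD0 hD hD1 hDQ
    refine ⟨E, hE0, fun j hj => (hE j hj).1, hE1, hEQ.trans (le_of_eq ?_)⟩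
    rw [← hR.s_eq v hGv]
    have h1 := hl v hv
    have h2 := res_r_nonneg hR hv
    have h3 := hR.s_pos v hGv
    have h4 : 0 < l v + r v := by linarith
    unfold hh
    have h5 : s v + l v + r v = s v + (l v + r v) := by ring
    rw [h5]
    field_simp

end Pool.Agent.MNT.H89
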