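import Pool.Agent.MNT.StmtsT

set_option autoImplicit false
set_option linter.unusedSectionVars false

/-!
# MNT, row FUP: upward distributions

`comb` combines the upward distribution of a node with the downward distributions of some of its
children by the parallel combination FPL; rows FUP and FLO are both instances of it.
-/

namespace Pool.Agent.MNT.H89

open scoped Classical

variable {V : Type} [Fintype V] [PartialOrder V] [OrderTop V]

theorem MM_sub (X Y : V → ℝ) (c : V) : MM (fun j => X j - Y j) c = MM X c - MM Y c := by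
  unfold MM
  rw [Finset.sum_sub_distrib]

theorem MM_dl (v c : V) : MM (dl v) c = if v ≤ c then 1 else 0 := by
  unfold MM dl
  rw [Finset.sum_ite_eq']
  simp

/-- A distribution whose mass lies below `v` has full mass below every `c ≥ v`. -/
theorem MM_one {D : V → ℝ} {v c : V} (hD : ∀ j, D j ≠ 0 → j ≤ v) (h1 : ∑ j, D j = 1)
    (hvc : v ≤ c) : MM D c = 1 := by
  unfold MM
  rw [← h1, Finset.sum_filter]
  refine Finset.sum_congr rfl fun j _ => ?_
  by_cases hj : D j = 0
  · simp [hj]
  · rw [if_pos ((hD j hj).trans hvc)]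

theorem MM_zero {D : V → ℝ} {c : V} (hD : ∀ j, j ≤ c → D j = 0) : MM D c = 0 := by
  unfold MM
  exact Finset.sum_eq_zero fun j hj => hD j (Finset.mem_filter.mp hj).2

/-- `[c ≤ c'] - [par c ≤ c'] = [c = c']`. -/
theorem ind_par (T : Tree V) {c : V} (hc : c ≠ ⊤) (c' : V) :
    ((if c ≤ c' then 1 else 0 : ℝ) - if T.par c ≤ c' then 1 else 0) = if c = c' then 1 else 0 := by
  have hlt := T.lt_par c hc
  rcases eq_or_ne c c' with h | h
  · subst h
    rw [if_pos le_rfl, if_neg (not_le_of_gt hlt), if_pos rfl]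
    ring
  · rw [if_neg h]
    by_cases h1 : c ≤ c'
    · rw [if_pos h1, if_pos (T.par_le c c' (lt_of_le_of_ne h1 h))]
      ring
    · rw [if_neg h1, if_neg fun h2 => h1 (hlt.le.trans h2)]
      ring

/-- The downward step. -/
theorem down_step (T : Tree V) (l : V → ℝ) {c : V} (hc : c ≠ ⊤) {D : V → ℝ}
    (hD : ∀ j, D j ≠ 0 → j ≤ c) (h1 : ∑ j, D j = 1) :
    QQ l (fun j => D j - dl (T.par c) j) = QQ l (fun j => D j - dl c j) + l c ∧
      ∀ c', MM (fun j => D j - dl (T.par c) j) c' ≠ 0 → c' ≤ c := by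
  have hlt := T.lt_par c hc
  constructor
  · unfold QQ
    have h0 : MM (fun j => D j - dl c j) c = 0 := by
      rw [MM_sub, MM_dl, MM_one hD h1 le_rfl, if_pos le_rfl, sub_self]
    have hterm : ∀ c' : V, l c' * MM (fun j => D j - dl (T.par c) j) c' ^ 2 =
        l c' * MM (fun j => D j - dl c j) c' ^ 2 + if c = c' then l c' else 0 := by
      intro c'
      have h2 := ind_par T hc c'
      have h3 : MM (fun j => D j - dl (T.par c) j) c' =
          MM (fun j => D j - dl c j) c' + if c = c' then 1 else 0 := by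
        rw [MM_sub, MM_sub, MM_dl, MM_dl]
        linarith
      rw [h3]
      rcases eq_or_ne c c' with h | h
      · subst h
        rw [h0, if_pos rfl, if_pos rfl]
        ring
      · rw [if_neg h, if_neg h]
        ring
    rw [Finset.sum_congr rfl fun c' _ => hterm c', Finset.sum_add_distrib, Finset.sum_ite_eq]
    simp [hc]
  · intro c' hne
    by_contra hcon
    apply hne
    rw [MM_sub, MM_dl]
    by_cases h2 : c ≤ c'
    · have h3 : c < c' := lt_of_le_of_ne h2 fun h => hcon (h ▸ le_rfl)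
      rw [MM_one hD h1 h2, if_pos (T.par_le c c' h3), sub_self]
    · rw [if_neg fun h3 => h2 (hlt.le.trans h3), sub_zero]
      refine MM_zero fun j hj => ?_
      by_contra hne'
      rcases T.comparable j c c' (hD j hne') hj with h | h
      · exact h2 h
      · exact hcon h

/-- The upward step. -/
theorem up_step (T : Tree V) (l : V → ℝ) {v : V} (hv : v ≠ ⊤) {D : V → ℝ}
    (hD : ∀ j, D j ≠ 0 → ¬ j ≤ v) :
    QQ l (fun j => D j - dl v j) = QQ l (fun j => D j - dl (T.par v) j) + l v ∧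
      ∀ c', c' < v → MM (fun j => D j - dl v j) c' = 0 := by
  have hlt := T.lt_par v hv
  constructor
  · unfold QQ
    have h0 : MM (fun j => D j - dl (T.par v) j) v = 0 := by
      rw [MM_sub, MM_dl, if_neg (not_le_of_gt hlt), sub_zero]
      refine MM_zero fun j hj => ?_
      by_contra hne
      exact hD j hne hj
    have hterm : ∀ c' : V, l c' * MM (fun j => D j - dl v j) c' ^ 2 =
        l c' * MM (fun j => D j - dl (T.par v) j) c' ^ 2 + if v = c' then l c' else 0 := by
      intro c'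
      have h2 := ind_par T hv c'
      have h3 : MM (fun j => D j - dl v j) c' =
          MM (fun j => D j - dl (T.par v) j) c' - if v = c' then 1 else 0 := by
        rw [MM_sub, MM_sub, MM_dl, MM_dl]
        linarith
      rw [h3]
      rcases eq_or_ne v c' with h | h
      · subst h
        rw [h0, if_pos rfl, if_pos rfl]
        ring
      · rw [if_neg h, if_neg h]
        ring
    rw [Finset.sum_congr rfl fun c' _ => hterm c', Finset.sum_add_distrib, Finset.sum_ite_eq]
    simp [hv]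
  · intro c' hc'
    rw [MM_sub, MM_dl, if_neg (not_le_of_gt hc'), sub_zero]
    refine MM_zero fun j hj => ?_
    by_contra hne
    exact hD j hne (hj.trans hc'.le)

theorem res_s_nonneg {T : Tree V} {G : V → Prop} {l s r : V → ℝ} (hR : Res T G l s r) (v : V) :
    0 ≤ s v := by
  by_cases h : G v
  · rw [hR.s_grd v h]
  · exact (hR.s_pos v h).le

theorem res_r_nonneg {T : Tree V} {G : V → Prop} {l s r : V → ℝ} (hR : Res T G l s r) {v : V}
    (hv : v ≠ ⊤) : 0 ≤ r v := by
  by_cases h : G (T.par v)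
  · rw [hR.r_grd v hv h]
  · exact (hR.r_pos v hv h).le

/-- Parallel combination at `v` of the upward distribution `U` and of the downward distributions
`D d` of the children `d ∈ S`. -/
theorem comb (hFPL : FplStmt) (T : Tree V) (G : V → Prop) (l s r : V → ℝ)
    (hl : ∀ c, c ≠ ⊤ → 0 < l c) (hR : Res T G l s r) {v : V} (hv : v ≠ ⊤)
    (S : Finset V) (hS : S ⊆ T.kids v) (U : V → ℝ) (hU0 : ∀ j, 0 ≤ U j)
    (hU : ∀ j, U j ≠ 0 → G j ∧ ¬ j ≤ v) (hU1 : ∑ j, U j = 1)
    (hUQ : QQ l (fun j => U j - dl (T.par v) j) ≤ r v)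
    (D : V → V → ℝ) (hD0 : ∀ d j, 0 ≤ D d j) (hD : ∀ d j, D d j ≠ 0 → G j ∧ j ≤ d)
    (hD1 : ∀ d, ∑ j, D d j = 1) (hDQ : ∀ d, QQ l (fun j => D d j - dl d j) ≤ s d) :
    ∃ E : V → ℝ, (∀ j, 0 ≤ E j) ∧ (∀ j, E j ≠ 0 → G j ∧ (¬ j ≤ v ∨ ∃ d ∈ S, j ≤ d)) ∧
      ∑ j, E j = 1 ∧
      QQ l (fun j => E j - dl v j) ≤ ((l v + r v)⁻¹ + ∑ d ∈ S, (l d + s d)⁻¹)⁻¹ := by
  have hkid : ∀ d ∈ S, d ≠ ⊤ ∧ T.par d = v := fun d hd => (T.mem_kids v d).mp (hS hd)
  -- the family
  let Y : Option {d // d ∈ S} → V → ℝ := fun k => k.elim U fun d => D d.1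
  let ρ : Option {d // d ∈ S} → ℝ := fun k => k.elim (l v + r v) fun d => l d.1 + s d.1
  have hρ : ∀ k, 0 < ρ k := by
    intro k
    cases k with
    | none => exact add_pos_of_pos_of_nonneg (hl v hv) (res_r_nonneg hR hv)
    | some d => exact add_pos_of_pos_of_nonneg (hl d.1 (hkid d.1 d.2).1) (res_s_nonneg hR d.1)
  have hY0 : ∀ k j, 0 ≤ Y k j := by
    intro k j
    cases k with
    | none => exact hU0 j
    | some d => exact hD0 d.1 j
  have hY1 : ∀ k, ∑ j, Y k j = 1 := by
    intro k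
    cases k with
    | none => exact hU1
    | some d => exact hD1 d.1
  have hYG : ∀ k j, Y k j ≠ 0 → G j ∧ (¬ j ≤ v ∨ ∃ d ∈ S, j ≤ d) := by
    intro k j h
    cases k with
    | none => exact ⟨(hU j h).1, Or.inl (hU j h).2⟩
    | some d => exact ⟨(hD d.1 j h).1, Or.inr ⟨d.1, d.2, (hD d.1 j h).2⟩⟩
  have hQ : ∀ k, QQ l (fun j => Y k j - dl v j) ≤ ρ k := by
    intro k
    cases k with
    | none =>
      have h := (up_step T l hv fun j hj => (hU j hj).2).1
      change QQ l (fun j => U j - dl v j) ≤ l v + r v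
      rw [h]
      linarith
    | some d =>
      have hk := hkid d.1 d.2
      have h := (down_step T l hk.1 (fun j hj => (hD d.1 j hj).2) (hD1 d.1)).1
      rw [hk.2] at h
      change QQ l (fun j => D d.1 j - dl v j) ≤ l d.1 + s d.1
      rw [h]
      have := hDQ d.1
      linarith
  have hup : ∀ c', c' < v → MM (fun j => Y none j - dl v j) c' = 0 := fun c' hc' =>
    (up_step T l hv fun j hj => (hU j hj).2).2 c' hc'
  have hdn : ∀ (d : {d // d ∈ S}) (c' : V), MM (fun j => Y (some d) j - dl v j) c' ≠ 0 →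
      c' ≤ d.1 := by
    intro d c' h
    have hk := hkid d.1 d.2
    have h2 := (down_step T l hk.1 (fun j hj => (hD d.1 j hj).2) (hD1 d.1)).2 c'
    rw [hk.2] at h2
    exact h2 h
  have hdlt : ∀ d : {d // d ∈ S}, d.1 < v := by
    intro d
    have hk := hkid d.1 d.2
    have h := T.lt_par d.1 hk.1
    rwa [hk.2] at h
  have hort : ∀ k k', k ≠ k' → ∀ c, c ≠ ⊤ → MM (fun j => Y k j - dl v j) c = 0 ∨
      MM (fun j => Y k' j - dl v j) c = 0 := by
    intro k k' hkk c _
    by_contra hcon
    rw [not_or] at hcon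
    obtain ⟨ha, hb⟩ := hcon
    cases k with
    | none =>
      cases k' with
      | none => exact hkk rfl
      | some d' => exact ha (hup c ((hdn d' c hb).trans_lt (hdlt d')))
    | some d =>
      cases k' with
      | none => exact hb (hup c ((hdn d c ha).trans_lt (hdlt d)))
      | some d' =>
        apply hkk
        have := T.kids_disj (hS d.2) (hS d'.2) (hdn d c ha) (hdn d' c hb)
        rw [Subtype.ext this]
  have key := hFPL V l (fun c hc => (hl c hc).le) (Option {d // d ∈ S})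
    (fun k j => Y k j - dl v j) ρ hρ hQ hort
  -- the sum of the inverses
  have hsum : ∑ k, (ρ k)⁻¹ = (l v + r v)⁻¹ + ∑ d ∈ S, (l d + s d)⁻¹ := by
    rw [Fintype.sum_option]
    congr 1
    exact Finset.sum_coe_sort S fun d => (l d + s d)⁻¹
  have hpos : 0 < ∑ k, (ρ k)⁻¹ :=
    Finset.sum_pos (fun k _ => inv_pos.mpr (hρ k)) Finset.univ_nonempty
  let w : Option {d // d ∈ S} → ℝ := fun k => (∑ k', (ρ k')⁻¹)⁻¹ * (ρ k)⁻¹
  have hw0 : ∀ k, 0 ≤ w k := fun k => mul_nonneg (inv_pos.mpr hpos).le (inv_pos.mpr (hρ k)).le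
  have hw1 : ∑ k, w k = 1 := by
    change ∑ k, (∑ k', (ρ k')⁻¹)⁻¹ * (ρ k)⁻¹ = 1
    rw [← Finset.mul_sum]
    exact inv_mul_cancel₀ hpos.ne'
  refine ⟨fun j => ∑ k, w k * Y k j, fun j => Finset.sum_nonneg fun k _ =>
    mul_nonneg (hw0 k) (hY0 k j), ?_, ?_, ?_⟩
  · intro j hj
    obtain ⟨k, _, hk⟩ := Finset.exists_ne_zero_of_sum_ne_zero hj
    exact hYG k j (right_ne_zero_of_mul hk)
  · rw [Finset.sum_comm]
    rw [← hw1]
    refine Finset.sum_congr rfl fun k _ => ?_
    rw [← Finset.mul_sum, hY1 k, mul_one]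
  · rw [hsum] at key
    have heq : (fun j => ∑ k, w k * Y k j - dl v j) =
        fun j => ∑ k, ((∑ k', (ρ k')⁻¹)⁻¹ * (ρ k)⁻¹) * (Y k j - dl v j) := by
      funext j
      change _ = ∑ k, w k * (Y k j - dl v j)
      simp only [mul_sub]
      rw [Finset.sum_sub_distrib, ← Finset.sum_mul, hw1, one_mul]
    rw [heq, hsum]
    exact key

theorem QQ_zero (l : V → ℝ) (v : V) : QQ l (fun j => dl v j - dl v j) = 0 := by
  unfold QQ
  refine Finset.sum_eq_zero fun c _ => ?_
  rw [MM_sub, sub_self]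
  ring

/-- FUP. -/
theorem fup (hFPL : FplStmt) (hFDN : FdnStmt) : FupStmt := by
  intro V _ _ _ T G l s r hl hG hR c
  induction c using WellFoundedGT.induction with
  | ind c ih =>
    intro hc
    have hlt := T.lt_par c hc
    by_cases hGu : G (T.par c)
    · refine ⟨dl (T.par c), ?_, ?_, ?_, ?_⟩
      · intro j
        unfold dl
        split_ifs
        · exact zero_le_one
        · exact le_rfl
      · intro j hj
        have hju : j = T.par c := by
          by_contra hne
          exact hj (if_neg hne)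
        subst hju
        exact ⟨hGu, not_le_of_gt hlt⟩
      · unfold dl
        rw [Finset.sum_ite_eq']
        simp
      · rw [QQ_zero, hR.r_grd c hc hGu]
    · have hu : T.par c ≠ ⊤ := fun h => hGu (h ▸ hG)
      obtain ⟨U, hU0, hU, hU1, hUQ⟩ := ih (T.par c) hlt hu
      choose D hD0 hD hD1 hDQ using hFDN V T G l s r hl hR
      obtain ⟨E, hE0, hE, hE1, hEQ⟩ := comb hFPL T G l s r hl hR hu ((T.kids (T.par c)).erase c)
        (Finset.erase_subset _ _) U hU0 hU hU1 hUQ D hD0 hD hD1 hDQ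
      refine ⟨E, hE0, ?_, hE1, ?_⟩
      · intro j hj
        obtain ⟨h1, h2⟩ := hE j hj
        refine ⟨h1, fun hjc => ?_⟩
        rcases h2 with h2 | ⟨d, hd, hjd⟩
        · exact h2 (hjc.trans hlt.le)
        · have hdk := Finset.mem_erase.mp hd
          exact hdk.1 (T.kids_disj hdk.2 ((T.mem_kids _ _).mpr ⟨hc, rfl⟩) hjd hjc)
      · rw [← hR.r_eq c hc hGu, inv_inv] at hEQ
        exact hEQ

end Pool.Agent.MNT.H89
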